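import Pool.Agent.H37.CNL.Stmts
import Pool.Agent.H72.CNK.ME1

/-!
# Row `VE1` of the board `cnl` (helper93; the proof is helper72's proof of `ME1`)
-/

set_option autoImplicit false

namespace Pool.CND

open Finset ME1aux in
theorem ve1_thm (hVAS : S_VAS) (hWCO : S_WCO) (hWCA : S_WCA) (hVVV : S_VVV) (hVBZ : S_VBZ) :
    S_VE1 := by
  intro p d k L G _ _ hch _ _ _ _ ρ t P Δ z x N C₁ n y u Y g₁ B hM hY hE
  have hD := hM.cv.dd
  have hpr := hM.cv.pr
  have hp2 := hpr.two_le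
  have hp3 : 3 ≤ p := by
    rcases Nat.lt_or_ge p 3 with h | h
    · exact absurd (by omega) hM.odd
    · exact h
  have hp3' : (3 : ℤ) ≤ p := by exact_mod_cast hp3
  have : CharP L p := charP_of_injective_algebraMap (algebraMap k L).injective p
  obtain ⟨-, hfix, -, hUM, -⟩ := hVAS p k L G ρ t P Δ hM.cv
  obtain ⟨-, -, hwc⟩ := hWCA p L hpr
  have hwcD := hwc Δ hD.add hD.mul
  -- `|N|` is a multiple of `p`
  obtain ⟨n', hn'⟩ : ∃ n' : ℕ, Nat.card N = p * n' := by
    have h1 : p ∣ Nat.card N := by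
      rw [← hM.oz, ← Nat.card_zpowers]
      exact Subgroup.card_dvd_of_le (Subgroup.zpowers_le.2 hM.zN)
    exact h1
  have hNpos : 0 < Nat.card N := Nat.card_pos
  have hn'pos : 1 ≤ n' := by
    rcases Nat.eq_zero_or_pos n' with h | h
    · rw [h, mul_zero] at hn'; omega
    · exact h
  have hn'Z : (1 : ℤ) ≤ n' := by exact_mod_cast hn'pos
  have hcN : (Nat.card N : ℤ) = p * n' := by rw [hn']; push_cast; ring
  have hu1 := hY.u1
  obtain ⟨U, hU⟩ : ∃ U : ℤ, U = (Nat.card N : ℤ) * u := ⟨_, rfl⟩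
  have hU1 : 1 ≤ U := by
    rw [hU, hcN]
    have := mul_pos (mul_pos (by omega : (0 : ℤ) < p) (by omega : (0 : ℤ) < n'))
      (by omega : (0 : ℤ) < u)
    omega
  obtain ⟨S, hS⟩ : ∃ S : ℤ, S = So P ρ N := ⟨_, rfl⟩
  obtain ⟨S0, hS0⟩ : ∃ S0 : ℤ, S0 = So P ρ (Subgroup.zpowers z) := ⟨_, rfl⟩
  have hC : C₁ = U + S := by
    have := hY.nu
    rw [← hU, ← hS] at this
    omega
  have hord0 := hY.ord0
  have hordi := hY.ordi
  rw [← hU] at hord0
  simp only [← hU] at hordi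
  -- orders of the `y i`
  have hyi : ∀ i, -U ≤ P.ord (y i) := by
    intro i
    have h1 := hordi i
    have h2 := hY.yneg i
    nlinarith
  have hτi : ∀ i, P.Ge ((y i) ^ p - y i) (-U) := by
    intro i
    obtain ⟨h1, h2⟩ := ord_as P hp2 (hY.yne i) (hY.yneg i)
    exact Or.inr (by rw [h2]; exact hordi i)
  have hDτ : ∀ i, Δ ((y i) ^ p - y i) = -Δ (y i) := fun i => das hD p (by omega) (y i)
  obtain ⟨τ, hτ⟩ : ∃ τ : L, τ = (y 0) ^ p - y 0 := ⟨_, rfl⟩
  obtain ⟨hτ0, hτord⟩ := ord_as P hp2 (hY.yne 0) (hY.yneg 0)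
  rw [← hτ] at hτ0 hτord
  rw [hord0] at hτord
  have hDτ0 : Δ τ = -Δ (y 0) := by rw [hτ]; exact hDτ 0
  obtain ⟨hd1, hd2⟩ := hY.dy0
  have hDτne : Δ τ ≠ 0 := by rw [hDτ0]; exact neg_ne_zero.2 hd1
  have hDτord : P.ord (Δ τ) = -C₁ := by rw [hDτ0, P.ord_neg]; exact hd2
  obtain ⟨A, hA⟩ : ∃ A : L, A = τ ^ (p - 1) * Δ τ := ⟨_, rfl⟩
  have hA0 : A ≠ 0 := by rw [hA]; exact mul_ne_zero (pow_ne_zero _ hτ0) hDτne
  have hp1 : ((p - 1 : ℕ) : ℤ) = p - 1 := by push_cast [Nat.cast_sub (by omega : 1 ≤ p)]; ring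
  have hAord : P.ord A = -(p * U + S) := by
    rw [hA, P.ord_mul _ _ (pow_ne_zero _ hτ0) hDτne, P.ord_pow hτ0, hτord, hDτord, hp1, hC]
    ring
  have hpU : 3 * U ≤ p * U := by nlinarith
  -- the choice of `q`
  obtain ⟨q, hq, hgq, hF0, hFord⟩ : ∃ q : ℤ, U ≤ q ∧ P.Ge g₁ (-(p * q)) ∧ A + Δ g₁ ≠ 0 ∧
      P.ord (A + Δ g₁) = -(p * q + S) := by
    rcases hE.red with h | ⟨hg0, m, hm, hm0, hpm⟩
    · refine ⟨U, le_rfl, P.ge_mono h (by omega), ?_⟩
      rw [← hAord]
      refine P.ord_add_of_lt hA0 ?_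
      rw [hAord]
      by_cases hg : g₁ = 0
      · rw [hg, dzero hD]; exact P.ge_zero _
      · obtain ⟨m', -, h2, -⟩ := hVVV p k L G ρ t P Δ N hM.cv hM.nor g₁ hg hE.gN
        have h3 := (P.ge_iff hg 0).1 h
        exact P.ge_mono h2 (by rw [← hS]; omega)
    · obtain ⟨m', hm', -, h3⟩ := hVVV p k L G ρ t P Δ N hM.cv hM.nor g₁ hg0 hE.gN
      have hmm : m' = m := by
        rw [hm] at hm'
        exact (mul_left_cancel₀ (by exact_mod_cast hNpos.ne') hm').symm
      subst hmm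
      obtain ⟨h4, h5⟩ := h3 hpm
      rw [hm, hcN, ← hS] at h5
      rw [hcN] at hm
      have hUe : U = p * n' * u := by rw [hU, hcN]
      have hne : m' ≠ -(p * u) := by
        intro h
        exact hpm ⟨-u, by rw [h]; ring⟩
      rcases lt_or_gt_of_ne hne with hlt | hgt
      · refine ⟨-(n' * m'), ?_, ?_, ?_⟩
        · rw [hUe]
          nlinarith
        · exact Or.inr (by rw [hm]; exact le_of_eq (by ring))
        · have e1 : P.ord (Δ g₁) = -(p * -(n' * m') + S) := by rw [h5]; ring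
          rw [← e1, add_comm A]
          refine P.ord_add_of_lt h4 ?_
          refine P.ge_mono (P.ge_ord A) ?_
          rw [hAord, h5, hUe]
          have h6 : (p : ℤ) * n' * (m' + p * u) < 0 := by
            apply mul_neg_of_pos_of_neg
            · exact mul_pos (by omega) (by omega)
            · omega
          linarith
      · refine ⟨U, le_rfl, ?_, ?_⟩
        · refine Or.inr ?_
          rw [hm, hUe]
          have h6 : 0 < (p : ℤ) * n' * (m' + p * u) := by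
            apply mul_pos
            · exact mul_pos (by omega) (by omega)
            · omega
          linarith
        · rw [← hAord]
          refine P.ord_add_of_lt hA0 ?_
          refine P.ge_mono (P.ge_ord _) ?_
          rw [hAord, h5, hUe]
          have h6 : 0 < (p : ℤ) * n' * (m' + p * u) := by
            apply mul_pos
            · exact mul_pos (by omega) (by omega)
            · omega
          linarith
  have hq1 : 1 ≤ q := by omega
  have hpq : p * U ≤ p * q := mul_le_mul_of_nonneg_left hq (by omega)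
  have hpq3 : 3 * q ≤ p * q := by nlinarith
  -- the order of `Y`
  have heqn := hE.eqn
  rw [← hτ] at heqn
  have hRge : P.Ge (Y ^ p - Y) (-(p * q)) := by
    rw [heqn]
    refine P.ge_add (P.ge_add ?_ ?_) hgq
    · have h1 := hWCO p k L P (y 0) hpr hch (hY.yne 0) (hY.yneg 0)
      rw [← hτ] at h1
      refine P.ge_mono h1 ?_
      have h2 := hyi 0
      have h3 : ((p : ℤ) - 1) * p * P.ord (y 0) = ((p : ℤ) - 1) * (-U) := by
        rw [mul_assoc, hord0]
      rw [h3]
      linarith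
    · refine P.ge_sum _ _ _ fun i _ => P.ge_sum _ _ _ fun j _ => ?_
      have h1 := P.ge_mul (P.ge_const (fp k (B i j)))
        (P.ge_mul (P.ge_mono (P.ge_ord (y i)) (hyi i)) (hτi j))
      refine P.ge_mono h1 ?_
      linarith
  have hYge : P.Ge Y (-q) := by
    by_contra hc
    obtain ⟨hY0, hYlt⟩ := P.not_ge.1 hc
    obtain ⟨h1, h2⟩ := ord_as P hp2 hY0 (by omega)
    have h3 := (P.ge_iff h1 _).1 hRge
    rw [h2] at h3
    nlinarith
  -- the order of `Δ Y`
  have hDY : -Δ Y = (A + Δ g₁) + ((y 0) ^ (p - 1) * Δ (y 0) +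
      ∑ i, ∑ j, algebraMap k L (fp k (B i j)) *
        (y i * Δ ((y j) ^ p - y j) + ((y j) ^ p - y j) * Δ (y i))) := by
    have h1 := das hD p (by omega) Y
    rw [heqn, hD.add, hD.add, hwcD, dsum hD] at h1
    have h2 : ∑ i, Δ (∑ j, algebraMap k L (fp k (B i j)) * (y i * ((y j) ^ p - y j))) =
        ∑ i, ∑ j, algebraMap k L (fp k (B i j)) *
          (y i * Δ ((y j) ^ p - y j) + ((y j) ^ p - y j) * Δ (y i)) := by
      refine sum_congr rfl fun i _ => ?_
      rw [dsum hD]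
      refine sum_congr rfl fun j _ => ?_
      rw [dcmul hD, hD.mul]
    rw [h2, ← hA] at h1
    rw [← h1, hDτ0]
    ring
  have hEge : P.Ge ((y 0) ^ (p - 1) * Δ (y 0) +
      ∑ i, ∑ j, algebraMap k L (fp k (B i j)) *
        (y i * Δ ((y j) ^ p - y j) + ((y j) ^ p - y j) * Δ (y i))) (-(2 * U + S)) := by
    refine P.ge_add ?_ ?_
    · refine Or.inr ?_
      rw [P.ord_mul _ _ (pow_ne_zero _ (hY.yne 0)) hd1, P.ord_pow (hY.yne 0), hd2, hp1, hC]
      have := hY.yneg 0
      linarith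
    · refine P.ge_sum _ _ _ fun i _ => P.ge_sum _ _ _ fun j _ => ?_
      have h1 : P.Ge (y i * Δ ((y j) ^ p - y j)) (-U + -C₁) := by
        rw [hDτ j]
        exact P.ge_mul (P.ge_mono (P.ge_ord (y i)) (hyi i)) (P.ge_neg (hY.dyi j))
      have h2 : P.Ge (((y j) ^ p - y j) * Δ (y i)) (-U + -C₁) := P.ge_mul (hτi j) (hY.dyi i)
      refine P.ge_mono (P.ge_mul (P.ge_const (fp k (B i j))) (P.ge_add h1 h2)) ?_
      rw [hC]
      linarith
  obtain ⟨h1, h2⟩ := P.ord_add_of_lt hF0 (P.ge_mono hEge (by rw [hFord]; linarith))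
  rw [← hDY, hFord, P.ord_neg] at h2
  rw [← hDY] at h1
  have hDY0 : Δ Y ≠ 0 := neg_ne_zero.1 h1
  -- `S(⟨z⟩) ≤ C₁`
  have hS0C : S0 ≤ C₁ := by
    have h3 := hM.eq
    have h4 : 0 ≤ sm (fun g => P.b (ρ g)) {y | x⁻¹ * y ∈ Subgroup.zpowers z} := by
      unfold sm
      refine sum_nonneg fun g hg => ?_
      rw [mem_filter] at hg
      have hg1 : g ≠ 1 := by
        rintro rfl
        have h5 : x⁻¹ * 1 ∈ Subgroup.zpowers z := hg.2
        rw [mul_one, inv_mem_iff] at h5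
        obtain ⟨i, hi⟩ := Subgroup.mem_zpowers_iff.1 h5
        have h6 : x ^ p = 1 := by
          rw [← hi, ← zpow_natCast, ← zpow_mul, mul_comm, zpow_mul, zpow_natCast, ← hM.oz,
            pow_orderOf_eq_one, one_zpow]
        rw [hM.xz] at h6
        have h7 := hM.oz
        rw [h6, orderOf_one] at h7
        omega
      have := hUM.pos g (Subgroup.mem_top g) hg1
      omega
    rw [← hS0] at h3
    omega
  have hL := hVBZ p k L G ρ t P Δ z Y (-q) hM.cv hM.oz hM.cen hE.zY (by omega) hYge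
  have hL' := (P.ge_iff hDY0 _).1 hL
  rw [h2, ← hS0] at hL'
  refine ⟨q, by rw [← hU]; exact hq, hYge, by rw [← hτ, ← hA]; exact hF0,
    by rw [← hτ, ← hA, ← hS]; exact hFord, ?_⟩
  rw [← hS, ← hS0]
  rcases min_le_iff.1 hL' with h | h
  · linarith
  · exfalso
    linarith

end Pool.CND
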