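import Pool.Agent.H37.CNL.Stmts

/-!
# Row `VI1` of the board `cnl` (helper93): one step, from `VLA`
-/

set_option autoImplicit false

namespace Pool.CND

theorem vi1_thm (hVLA : S_VLA) : S_VI1 := by
  intro p k L G _ _ _ _ _ _ ρ t P Δ z x R hcv hodd hoz hcen hxz hcom hR hle hgap
  have hzp : z ^ p = 1 := by rw [← hoz, pow_orderOf_eq_one]
  have hzc : ∀ w ∈ Subgroup.zpowers z, ∀ g : G, g * w = w * g := by
    intro w hw g
    obtain ⟨i, hi⟩ := Subgroup.mem_zpowers_iff.1 hw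
    rw [← hi]
    have h1 : Commute g z := hcen g
    exact h1.zpow_right i
  refine hVLA p k L G ρ t P Δ z x R _ ⟨hcv, hodd, hoz, hcen, ?_, ?_, ?_, hxz, ?_, ?_, ?_, rfl, hgap⟩
  · refine ⟨fun a ha g => ?_⟩
    rw [hR] at ha ⊢
    have h1 : (g * a * g⁻¹) ^ p = a ^ p := by
      rw [conj_pow, hzc _ ha g, mul_assoc, mul_inv_cancel, mul_one]
    rw [h1]
    exact ha
  · rw [hR, hzp]
    exact Subgroup.one_mem _
  · rw [hR, hxz]
    exact Subgroup.mem_zpowers z
  · exact fun a ha => (hR a).1 ha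
  · exact fun g a ha => hcom a g ((hR a).1 ha)
  · intro g hg
    have := hle g hg
    linarith

end Pool.CND
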